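import Pool.Agent.ISO.StmtsD

/-! Squad ISO, row DRK (helper76) -/

set_option autoImplicit false

namespace Pool.Agent.ISO.H76

open MvPolynomial Pool.Agent.Helper32_OMP

theorem drk (h1 : DimStmt) : DrkStmt := by
  classical
  intro σ ι _ _ f z hz
  obtain ⟨h0, hadd, hmul, -, -⟩ := h1 ℂ σ ι f
  let A : ι → (ι ⊕ σ) → MvPolynomial σ ℂ := fun j c =>
    Sum.elim (fun i => if i = j then f j else 0) (fun l => pderiv l (f j)) c
  let L : (ι → ℂ) →ₗ[ℂ] (ι ⊕ σ → ℂ) :=
    { toFun := fun v c => ∑ j, v j * eval z (A j c)
      map_add' := by
        intro v w
        funext c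
        show ∑ j, (v j + w j) * eval z (A j c) =
          ∑ j, v j * eval z (A j c) + ∑ j, w j * eval z (A j c)
        rw [← Finset.sum_add_distrib]
        exact Finset.sum_congr rfl fun j _ => add_mul _ _ _
      map_smul' := by
        intro r v
        funext c
        show ∑ j, (r * v j) * eval z (A j c) = r * ∑ j, v j * eval z (A j c)
        rw [Finset.mul_sum]
        exact Finset.sum_congr rfl fun j _ => mul_assoc _ _ _ }
  have hL : ∀ v c, L v c = ∑ j, v j * eval z (A j c) := fun v c => rfl
  have hker : LinearMap.ker L = ⊥ := by
    rw [LinearMap.ker_eq_bot']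
    intro v hv
    have e1 : ∀ j, eval z (f j) ≠ 0 → v j = 0 := by
      intro j hj
      have e := congrFun hv (Sum.inl j)
      rw [hL] at e
      have e' : ∑ j', v j' * eval z (A j' (Sum.inl j)) = v j * eval z (f j) := by
        rw [Finset.sum_eq_single j]
        · show v j * eval z (if j = j then f j else 0) = _
          rw [if_pos rfl]
        · intro b _ hb
          show v b * eval z (if j = b then f b else 0) = 0
          rw [if_neg (Ne.symm hb), map_zero, mul_zero]
        · intro h
          exact absurd (Finset.mem_univ _) h
      rw [e'] at e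
      exact (mul_eq_zero.1 e).resolve_right hj
    have e2 : ∀ l, ∑ j : {i // eval z (f i) = 0}, v j * eval z (pderiv l (f j)) = 0 := by
      intro l
      have e := congrFun hv (Sum.inr l)
      rw [hL] at e
      have e' : ∑ j : {i // eval z (f i) = 0}, v j * eval z (pderiv l (f j)) =
          ∑ j, v j * eval z (A j (Sum.inr l)) := by
        have e0 : ∑ j : {i // eval z (f i) = 0}, v j * eval z (pderiv l (f j)) =
            ∑ j ∈ Finset.univ.subtype (fun i => eval z (f i) = 0),
              v (j : ι) * eval z (pderiv l (f (j : ι))) := by
          rw [Finset.subtype_univ]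
        rw [e0, Finset.sum_subtype_eq_sum_filter (fun j => v j * eval z (pderiv l (f j)))]
        rw [Finset.sum_filter_of_ne]
        · rfl
        · intro x _ hx
          by_contra h
          exact hx (by rw [e1 x h, zero_mul])
      rw [e', e]
      rfl
    funext j
    by_cases hj : eval z (f j) = 0
    · have hli := Fintype.linearIndependent_iff.1 hz (fun i => v i) (by
        funext l
        rw [Finset.sum_apply]
        exact e2 l)
      exact hli ⟨j, hj⟩
    · exact e1 j hj
  obtain ⟨g, hg⟩ := L.exists_leftInverse_of_injective hker
  let B : (ι ⊕ σ) → ι → ℂ := fun c i => g (fun c' => if c = c' then 1 else 0) i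
  have hB : ∀ j i, ∑ c, eval z (A j c) * B c i = if j = i then 1 else 0 := by
    intro j i
    have e : g (L (fun j' => if j = j' then 1 else 0)) = (fun j' => if j = j' then (1 : ℂ) else 0) := by
      have := LinearMap.congr_fun hg (fun j' => if j = j' then (1 : ℂ) else 0)
      exact this
    rw [LinearMap.pi_apply_eq_sum_univ g] at e
    have e' := congrFun e i
    rw [Finset.sum_apply] at e'
    rw [← e']
    refine Finset.sum_congr rfl fun c _ => ?_
    show _ = (L (fun j' => if j = j' then 1 else 0) c) * B c i
    congr 1
    rw [hL]
    rw [Finset.sum_eq_single j]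
    · rw [if_pos rfl, one_mul]
    · intro b _ hb
      rw [if_neg (Ne.symm hb), zero_mul]
    · intro h
      exact absurd (Finset.mem_univ _) h
  let M : Matrix ι ι (MvPolynomial σ ℂ) := fun j i => ∑ c, A j c * C (B c i)
  refine ⟨M.det, ?_, ?_⟩
  · intro v
    have hcol : ∀ i, Im f fun j => M j i := by
      intro i
      refine ⟨fun j => C (B (Sum.inl j) i), fun l => C (B (Sum.inr l) i), fun j => ?_⟩
      show ∑ c, A j c * C (B c i) = _
      rw [Fintype.sum_sum_type]
      congr 1
      · rw [Finset.sum_eq_single j]
        · show (if j = j then f j else 0) * _ = _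
          rw [if_pos rfl, mul_comm]
        · intro b _ hb
          show (if b = j then f j else 0) * _ = 0
          rw [if_neg hb, zero_mul]
        · intro h
          exact absurd (Finset.mem_univ _) h
      · exact Finset.sum_congr rfl fun l _ => mul_comm _ _
    have hsum : ∀ (w : ι → MvPolynomial σ ℂ) (s : Finset ι),
        Im f fun j => ∑ i ∈ s, w i * M j i := by
      intro w s
      induction s using Finset.induction_on with
      | empty =>
        have e : (fun j : ι => ∑ i ∈ (∅ : Finset ι), w i * M j i) = fun _ => 0 := by
          funext j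
          exact Finset.sum_empty
        rw [e]
        exact h0
      | insert a s ha ih =>
        have e : (fun j : ι => ∑ i ∈ insert a s, w i * M j i) =
            fun j => w a * M j a + ∑ i ∈ s, w i * M j i := by
          funext j
          exact Finset.sum_insert ha
        rw [e]
        exact hadd _ _ (hmul _ _ (hcol a)) ih
    have e : (fun j => M.det * v j) =
        fun j => ∑ i, (M.adjugate.mulVec v) i * M j i := by
      funext j
      have e1 : M.mulVec (M.adjugate.mulVec v) = M.det • v := by
        rw [Matrix.mulVec_mulVec, Matrix.mul_adjugate, Matrix.smul_mulVec, Matrix.one_mulVec]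
      have e2 := congrFun e1 j
      rw [Pi.smul_apply, smul_eq_mul] at e2
      rw [← e2]
      show ∑ i, M j i * (M.adjugate.mulVec v) i = _
      exact Finset.sum_congr rfl fun i _ => mul_comm _ _
    rw [e]
    exact hsum _ _
  · rw [RingHom.map_det]
    have e : (eval z).mapMatrix M = 1 := by
      ext j i
      show eval z (∑ c, A j c * C (B c i)) = _
      rw [map_sum]
      rw [Matrix.one_apply, ← hB j i]
      refine Finset.sum_congr rfl fun c _ => ?_
      rw [map_mul, eval_C]
    rw [e, Matrix.det_one]

end Pool.Agent.ISO.H76
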